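import Pool.Agent.H180.FF.Main

/-!
# Tate classes over finite fields: lines over an extension field
-/

set_option autoImplicit false
set_option linter.unusedSectionVars false

namespace Pool.Agent.H180.FF

open Finset NumberField Filter Topology Pool.Agent.H916R2 Pool.Agent.Q59.FS Pool.Agent.Q59.RL
  Pool.Agent.H180.RS

section Norm

variable {F : Type} [Field F] [Fintype F]

lemma norm_gauss {χ : MulChar F ℂ} {ψ : AddChar F ℂ} (hχ : χ ≠ 1) (hψ : ψ ≠ 1) :
    ‖gaussSum χ ψ‖ ^ 2 = Fintype.card F := by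
  have h1 := gaussSum_mul_gaussSum_eq_card hχ (AddChar.IsPrimitive.of_ne_one hψ)
  have h2 : (starRingEnd ℂ) (gaussSum χ ψ) = gaussSum χ⁻¹ ψ⁻¹ := by
    unfold gaussSum
    rw [map_sum]
    refine sum_congr rfl fun x _ => ?_
    rw [map_mul, AddChar.inv_apply, AddChar.map_neg_eq_conj]
    congr 1
    exact MulChar.star_apply' χ x
  rw [← h2, Complex.mul_conj, Complex.normSq_eq_norm_sq] at h1
  exact_mod_cast h1

lemma norm_char {χ : MulChar F ℂ} {x : F} (hx : x ≠ 0) : ‖χ x‖ = 1 := by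
  have h1 : χ x ^ (Fintype.card F - 1) = 1 := by
    rw [← map_pow, FiniteField.pow_card_sub_one_eq_one x hx, map_one]
  have h2 : Fintype.card F - 1 ≠ 0 := by
    have := Fintype.one_lt_card (α := F)
    omega
  exact Complex.norm_eq_one_of_pow_eq_one h1 h2

lemma norm_mprod {κ : Type*} (s : Multiset κ) (f : κ → ℂ) (c : ℝ) (hf : ∀ i ∈ s, ‖f i‖ ^ 2 = c) :
    ‖(s.map f).prod‖ ^ 2 = c ^ Multiset.card s := by
  induction s using Multiset.induction_on with
  | empty => simp
  | cons a s ih =>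
    rw [Multiset.map_cons, Multiset.prod_cons, norm_mul, mul_pow,
      ih fun i hi => hf i (Multiset.mem_cons_of_mem hi), hf a (Multiset.mem_cons_self a s),
      Multiset.card_cons, pow_succ']

end Norm

section Lines

variable {m p q : ℕ} [NeZero m] {x y z : ℤ} {ℓ : ℕ} [hl : Fact ℓ.Prime]

/-- **Tate classes over finite fields.** -/
theorem tate_ff (h1 : PropDistM) (h2 : PropValM) (h3 : PropSqM) (h4 : PropEvM)
    (h5 : PropHodgeF) (h6 : PropLift) (hodd : Odd m)
    (hpf : m.primeFactors = {p, q}) (hpq : p ≠ q) (hq4 : q % 4 = 1)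
    (hsq : IsSquare ((p : ℕ) : ZMod q)) (hxy : IsCoprime x y) (hz : z ≠ 0)
    (hN : x ^ 2 - st p * y ^ 2 = q * z ^ 2) (hneg : Neg m p x y z ℓ)
    {A : Multiset (ZMod m) → Prop} (hA : Adm m A) {k : ℕ} (hk : Odd k)
    {F : Type} [Field F] [Fintype F] (hF : Fintype.card F = ℓ ^ k)
    {χ : MulChar F ℂ} {ψ : AddChar F ℂ} (hψ : ψ ≠ 1) (hχ : orderOf χ = m)
    {s : Multiset (ZMod m × F)} (hs : ∀ w ∈ s, w.1 ≠ 0 ∧ w.2 ≠ 0) (hsum : (s.map Prod.fst).sum = 0)
    (hfix : (s.map fun w => gaussSum (χ ^ w.1.val) ψ).prod =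
      (Fintype.card F : ℂ) ^ (Multiset.card s / 2) *
        (s.map fun w => (χ ^ w.1.val) w.2).prod) : A (s.map Prod.fst) := by
  classical
  have hp' : p ∈ m.primeFactors := by rw [hpf]; exact mem_insert_self _ _
  have hm2 : 2 ≤ m := (Nat.prime_of_mem_primeFactors hp').two_le.trans
    (Nat.le_of_dvd (NeZero.pos m) (Nat.dvd_of_mem_primeFactors hp'))
  have hl2 := hl.out.two_le
  have hmℓ : m ∣ ℓ - 1 := (Dvd.intro_left _ rfl).trans hneg.2.1
  have hk0 : 0 < k := hk.pos
  have h0 : (0 : ZMod m) ∉ s.map Prod.fst := by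
    intro h
    obtain ⟨w, hw, hw0⟩ := Multiset.mem_map.mp h
    exact (hs w hw).1 hw0
  -- the number of entries is even
  have heven : Even (Multiset.card s) := by
    have g1 := congrArg (fun z : ℂ => ‖z‖ ^ 2) hfix
    simp only [norm_mul, mul_pow, norm_pow, Complex.norm_natCast] at g1
    rw [norm_mprod s _ (Fintype.card F : ℝ) fun w hw => norm_gauss (pw_ne_one hχ (hs w hw).1) hψ,
      norm_mprod s _ 1 fun w hw => by rw [norm_char (hs w hw).2, one_pow], one_pow, mul_one,
      ← pow_mul] at g1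
    have g2 : 1 < Fintype.card F := Fintype.one_lt_card
    have g3 : (Fintype.card F) ^ (Multiset.card s) = Fintype.card F ^ (Multiset.card s / 2 * 2) := by
      exact_mod_cast g1
    have g4 := Nat.pow_right_injective g2 g3
    exact ⟨Multiset.card s / 2, by omega⟩
  obtain ⟨n, hn⟩ := heven
  -- the coefficients
  have hQ : (s.map fun w => (χ ^ w.1.val) w.2).prod ^ m = 1 := by
    have g1 : ∀ s : Multiset (ZMod m × F), (∀ w ∈ s, w.1 ≠ 0 ∧ w.2 ≠ 0) →
        (s.map fun w => (χ ^ w.1.val) w.2).prod ^ m = 1 := by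
      intro s
      induction s using Multiset.induction_on with
      | empty => intro _; simp
      | cons a s ih =>
        intro hs
        rw [Multiset.map_cons, Multiset.prod_cons, mul_pow,
          ih fun w hw => hs w (Multiset.mem_cons_of_mem hw), mul_one]
        have ha := (hs a (Multiset.mem_cons_self a s)).2
        obtain ⟨u, hu⟩ := isUnit_iff_ne_zero.mpr ha
        have hχm : χ ^ m = 1 := by
          conv_lhs => rw [← hχ]
          exact pow_orderOf_eq_one χ
        rw [← hu, ← MulChar.pow_apply_coe, ← pow_mul, mul_comm, pow_mul, hχm, one_pow,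
          MulChar.one_apply_coe]
    exact g1 s hs
  have hc : Multiset.card (s.map Prod.fst) = n + n := by rw [Multiset.card_map, hn]
  obtain ⟨χ0, ψ0, hψ0, hχ0, hlift⟩ := h6 ℓ k m hk0 hmℓ F hF χ ψ hψ hχ
  have hl3 := hlift (s.map Prod.fst) h0 hsum
  have hkm : Even ((k - 1) * Multiset.card (s.map Prod.fst)) := by
    obtain ⟨j, hj⟩ := hk
    exact Even.mul_right ⟨j, by omega⟩ _
  rw [hkm.neg_one_pow, one_mul, Multiset.map_map] at hl3
  set P0 : ℂ := ((s.map Prod.fst).map fun a => gaussSum (χ0 ^ a.val) ψ0).prod with hP0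
  have hP : P0 ^ (k * m) = (ℓ : ℂ) ^ (k * m * n) := by
    rw [pow_mul, ← hl3]
    have g1 := congrArg (fun z => z ^ m) hfix
    simp only [mul_pow, hQ, mul_one] at g1
    have g2 : ((fun a : ZMod m => gaussSum (χ ^ a.val) ψ) ∘ Prod.fst) =
        fun w : ZMod m × F => gaussSum (χ ^ w.1.val) ψ := rfl
    rw [g2, g1, hn, hF, show (n + n) / 2 = n by omega]
    push_cast
    rw [← pow_mul, ← pow_mul]
    congr 1
    ring
  have hH : IsHodge m (s.map Prod.fst) := by
    refine h5 ℓ m (k * m) hm2 (Nat.mul_pos hk0 (NeZero.pos m)) χ0 ψ0 hψ0 hχ0 _ h0 hsum ?_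
    rw [hc, mul_comm 2 (k * m), pow_mul, ← hP0, hP, ← pow_mul]
    congr 1
    ring
  have hcl : clU (s.map Prod.fst) = 0 := by
    refine class_zero h1 h2 h3 h4 hodd hpf hpq hq4 hsq hxy hz hN hneg hψ0 hχ0 hA hH hk ?_
    have g1 : ((s.map Prod.fst).map fun a => nz ψ0 (χ0 ^ a.val)).prod =
        P0 / ((Real.sqrt ℓ : ℝ) : ℂ) ^ Multiset.card (s.map Prod.fst) := by
      rw [hP0]
      unfold nz
      rw [Multiset.prod_map_div, Multiset.map_const', Multiset.prod_replicate]
    have g2 : ((Real.sqrt ℓ : ℝ) : ℂ) ^ (n + n) = (ℓ : ℂ) ^ n := by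
      rw [← two_mul, pow_mul, ← Complex.ofReal_pow, Real.sq_sqrt (by positivity)]
      norm_cast
    have g3 : (ℓ : ℂ) ≠ 0 := by exact_mod_cast hl.out.ne_zero
    rw [g1, hc, g2, div_pow, hP, ← pow_mul, mul_comm n (k * m), div_self (pow_ne_zero _ g3)]
  rw [← cl_eq_zero_iff hA hm2 h0, ← Pool.Agent.Q6.RS.nat_clU, hcl, map_zero]

end Lines

end Pool.Agent.H180.FF
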