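import Pool.Agent.Q6.RS.Law

/-!
# The dyadic law from the independence of a set of exotic classes

Adapted from `Pool.Agent.Q6.RS.Law` (helper6).
-/

set_option autoImplicit false
set_option linter.unusedSectionVars false

namespace Pool.Agent.H180.FF

open Finset NumberField Filter Topology Pool.Agent.H916R2 Pool.Agent.Q59.FS Pool.Agent.Q59.RL
  Pool.Agent.H180.RS Pool.Agent.Q6.RS

/-- two different primes dividing `m` -/
def PP (m : ℕ) (e : ℕ × ℕ) : Prop := e.1.Prime ∧ e.2.Prime ∧ e.1 ∣ m ∧ e.2 ∣ m ∧ e.1 ≠ e.2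

section Law

variable {K : Type} [Field K] [NumberField K] {m : ℕ} [NeZero m] {σ : K →+* ℂ}
  {A : Multiset (ZMod m) → Prop}

theorem two_Xc' (hodd : Odd m) {G : Type*} [AddCommGroup G] {c : ZMod m → G} (hc : OddDist c)
    {e : ℕ × ℕ} (he : PP m e) : (2 : ℤ) • Xc m e.1 e.2 c = 0 := by
  obtain ⟨h1, h2, h3, h4, h5⟩ := he
  have : Fact e.1.Prime := ⟨h1⟩
  have : Fact e.2.Prime := ⟨h2⟩
  exact two_XX hc h3 h4 (ne_two_of_dvd hodd h3) (ne_two_of_dvd hodd h4) (gn_spec _) (gn_spec _)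
    (lg_spec (cast_ne h2 h5)) (lg_spec (cast_ne h1 h5.symm))

theorem Xc_mem' (hodd : Odd m) {G : Type} [AddCommGroup G] (c : ZMod m → G) {e : ℕ × ℕ}
    (he : PP m e) : Xc m e.1 e.2 c ∈ TD c m := by
  obtain ⟨h1, h2, h3, h4, h5⟩ := he
  have : Fact e.1.Prime := ⟨h1⟩
  have : Fact e.2.Prime := ⟨h2⟩
  rw [mem_TD]
  refine ⟨xf m e.1 e.2 (gn e.1) (gn e.2) (lg e.1 e.2) (lg e.2 e.1), ?_, fun a _ => ?_, ?_⟩
  · exact xf_rel h3 h4 (ne_two_of_dvd hodd h3) (ne_two_of_dvd hodd h4) (gn_spec _) (gn_spec _)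
      (lg_spec (cast_ne h2 h5)) (lg_spec (cast_ne h1 h5.symm))
  · have := addOrderOf_dvd_card (x := a)
    rw [ZMod.card] at this
    exact Nat.le_of_dvd (NeZero.pos m) this
  · rw [← lc_apply, lc_xf]
    rfl

/-- the group -/
theorem card_group2 (hA : Adm m A) (hodd : Odd m) {Γ : Type} [AddCommGroup Γ]
    (R : AddSubgroup Γ) (πU : Γ →+ UD m × ZMod 2) (S : Finset (ℕ × ℕ)) (hS : ∀ e ∈ S, PP m e)
    (hne : ∀ E ⊆ S, E.Nonempty → ∀ x ∈ R, πU x ≠ (∑ e ∈ E, Xc m e.1 e.2 (cU m), 0)) :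
    ∃ s ≤ 2 ^ (m.primeFactors.card - 1) - 1 - S.card,
      Nat.card (TT' A ⊓ R.map ((nat A).comp πU) : AddSubgroup _) = 2 ^ s := by
  classical
  set TU : AddSubgroup (UD m × ZMod 2) := (TD (cU m) m).prod ⊥ with hTU
  set FU : AddSubgroup (UD m × ZMod 2) := TU ⊓ R.map πU with hFU
  obtain ⟨s1, hs1, hcard⟩ := card_T (cU_oddDist m)
  rw [levels_eq hodd] at hs1
  have hTUc : Nat.card TU = 2 ^ s1 := by
    rw [← hcard, hTU]
    have h1 : Nat.card ((TD (cU m) m).prod (⊥ : AddSubgroup (ZMod 2))) =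
        Nat.card (TD (cU m) m) * Nat.card (⊥ : AddSubgroup (ZMod 2)) := by
      rw [← Nat.card_prod]
      exact Nat.card_congr (AddSubgroup.prodEquiv _ _).toEquiv
    rw [h1]
    simp
  -- the exotic subgroup
  let X : ℕ × ℕ → UD m × ZMod 2 := fun e => (Xc m e.1 e.2 (cU m), 0)
  have hX : ∀ e ∈ S, (2 : ℤ) • X e = 0 := fun e he => by
    refine Prod.ext ?_ ?_
    · exact two_Xc' hodd (cU_oddDist m) (hS e he)
    · change (2 : ℤ) • (0 : ZMod 2) = 0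
      exact smul_zero _
  have hXsum : ∀ E : Finset (ℕ × ℕ), ∑ e ∈ E, X e = (∑ e ∈ E, Xc m e.1 e.2 (cU m), 0) := by
    intro E
    refine Prod.ext ?_ ?_
    · rw [Prod.fst_sum]
    · rw [Prod.snd_sum]; exact sum_eq_zero fun _ _ => rfl
  set U := subs S X hX with hU
  have hUc : Nat.card U = 2 ^ S.card := by
    rw [hU, card_subs]
    intro E hE hEn h
    refine hne E hE hEn 0 R.zero_mem ?_
    rw [map_zero, ← hXsum, h]
  have hUT : U ≤ TU := by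
    rintro _ ⟨E, hE, rfl⟩
    refine AddSubgroup.sum_mem _ fun e he => ?_
    rw [hTU, AddSubgroup.mem_prod]
    exact ⟨Xc_mem' hodd _ (hS e (hE he)), AddSubgroup.mem_bot.mpr rfl⟩
  have hint : FU ⊓ U = ⊥ := by
    rw [eq_bot_iff]
    rintro w ⟨hw1, E, hE, rfl⟩
    rw [AddSubgroup.mem_bot]
    obtain ⟨x, hx, hxw⟩ := hw1.2
    rcases E.eq_empty_or_nonempty with h | h
    · rw [h, sum_empty]
    · exfalso
      exact hne E hE h x hx (by rw [← hXsum]; exact hxw)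
  have hdvd := card_mul_dvd FU U TU inf_le_left hUT hint
  rw [hUc, hTUc] at hdvd
  obtain ⟨a, ha, ha'⟩ := (Nat.dvd_prime_pow Nat.prime_two).mp ((Dvd.intro _ rfl).trans hdvd)
  rw [ha', ← pow_add] at hdvd
  have hle := (Nat.pow_dvd_pow_iff_le_right (by norm_num)).mp hdvd
  -- the image
  have himg : (TT' A ⊓ R.map ((nat A).comp πU) : AddSubgroup _) = FU.map (nat A) := by
    ext v
    constructor
    · rintro ⟨h1, x, hx, rfl⟩
      exact ⟨πU x, ⟨(nat_mem_iff hA _).mp h1, x, hx, rfl⟩, rfl⟩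
    · rintro ⟨_, ⟨h1, x, hx, rfl⟩, rfl⟩
      exact ⟨(nat_mem_iff hA _).mpr h1, x, hx, rfl⟩
  have hdvd2 : Nat.card (TT' A ⊓ R.map ((nat A).comp πU) : AddSubgroup _) ∣ 2 ^ a := by
    rw [himg, ← ha']
    exact AddSubgroup.card_map_dvd _ _
  obtain ⟨s, hs, hs'⟩ := (Nat.dvd_prime_pow Nat.prime_two).mp hdvd2
  exact ⟨s, by omega, hs'⟩

theorem law2 (hA : Adm m A) (hm : 2 ≤ m) (hodd : Odd m) (σ : K →+* ℂ) (ι : Type) [Fintype ι]
    [DecidableEq ι] [Nonempty ι] (L : ι → Multiset (ZMod m × 𝓞 K))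
    (hL : ∀ i, ∀ z ∈ L i, z.1 ≠ 0 ∧ z.2 ≠ 0) (hsum : ∀ i, ((L i).map Prod.fst).sum = 0)
    (S : Finset (ℕ × ℕ)) (hS : ∀ e ∈ S, PP m e)
    (hne : ∀ E ⊆ S, E.Nonempty → ∀ x ∈ Rg σ L,
      lc (fun i => clU ((L i).map Prod.fst)) x ≠ (∑ e ∈ E, Xc m e.1 e.2 (cU m), 0)) :
    ∃ s ≤ 2 ^ (m.primeFactors.card - 1) - 1 - S.card,
      (∀ k : ℕ, Nat.card {p : (Fin k → ι) × (Fin k → ι) //
          IsHodge m ((uni L p).map Prod.fst) ∧ Fixed m σ (uni L p)} ≤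
        2 ^ s * Nat.card {p : (Fin k → ι) × (Fin k → ι) //
          A ((uni L p).map Prod.fst) ∧ Fixed m σ (uni L p)}) ∧
      Tendsto (fun k : ℕ => (Nat.card {p : (Fin k → ι) × (Fin k → ι) //
          A ((uni L p).map Prod.fst) ∧ Fixed m σ (uni L p)} : ℝ) /
        Nat.card {p : (Fin k → ι) × (Fin k → ι) //
          IsHodge m ((uni L p).map Prod.fst) ∧ Fixed m σ (uni L p)}) atTop (𝓝 (1 / 2 ^ s)) ∧
      (s = 0 ↔ ∀ (k : ℕ) (p : (Fin k → ι) × (Fin k → ι)),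
        IsHodge m ((uni L p).map Prod.fst) → Fixed m σ (uni L p) → A ((uni L p).map Prod.fst)) := by
  set c : ι → (ι → ℤ) := fun i => Pi.single i 1 with hc
  set L' : ι → Multiset (ZMod m) := fun i => (L i).map Prod.fst with hL'
  have h0 : ∀ i, (0 : ZMod m) ∉ L' i := by
    intro i h
    obtain ⟨z, hz, hz0⟩ := Multiset.mem_map.mp h
    exact (hL i z hz).1 hz0
  set π : (ι → ℤ) →+ ((ZMod m → ℤ) ⧸ LL m A) × ZMod 2 := lc (fun i => cl A (L' i)) with hπ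
  have hπdf : ∀ {k : ℕ} (p : (Fin k → ι) × (Fin k → ι)), π (df c p) = cl A (un L' p) := by
    intro k p
    rw [hπ, lc_df, cl_un]
  set πU : (ι → ℤ) →+ UD m × ZMod 2 := lc (fun i => clU (L' i)) with hπU
  have hcomp : (nat A).comp πU = π := by
    refine AddMonoidHom.ext fun x => ?_
    rw [AddMonoidHom.comp_apply, hπU, hπ, lc_apply, lc_apply, map_sum]
    refine sum_congr rfl fun i _ => ?_
    rw [map_zsmul, nat_clU]
  obtain ⟨s0, hs0, hcard⟩ := card_group2 hA hodd (Rg σ L) πU S hS hne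
  rw [hcomp] at hcard
  obtain ⟨s, hs, h1, h2, h3⟩ := rel_law c (Rg σ L) π (TT' A ⊓ (Rg σ L).map π) hcard
  have evenH : ∀ {k : ℕ} (p : (Fin k → ι) × (Fin k → ι)), IsHodge m ((uni L p).map Prod.fst) →
      Even (Multiset.card (uni L p)) := by
    intro k p h
    have := h.2.1
    rwa [Multiset.card_map] at this
  have f1 : ∀ {k : ℕ} (p : (Fin k → ι) × (Fin k → ι)),
      (df c p ∈ Rg σ L ∧ π (df c p) ∈ (TT' A ⊓ (Rg σ L).map π : AddSubgroup _)) ↔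
        (IsHodge m ((uni L p).map Prod.fst) ∧ Fixed m σ (uni L p)) := by
    intro k p
    have g1 : (df c p ∈ Rg σ L ∧ π (df c p) ∈ (TT' A ⊓ (Rg σ L).map π : AddSubgroup _)) ↔
        (df c p ∈ Rg σ L ∧ π (df c p) ∈ TT' A) := by
      constructor
      · rintro ⟨a, b⟩
        exact ⟨a, b.1⟩
      · rintro ⟨a, b⟩
        exact ⟨a, b, _, a, rfl⟩
    rw [g1, hπdf, cl_mem_iff hA (un_zero h0 p), ← uni_fst]
    constructor
    · rintro ⟨a, b⟩
      exact ⟨b, (fixed_uni' L hL hsum p (evenH p b)).mpr a⟩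
    · rintro ⟨a, b⟩
      exact ⟨(fixed_uni' L hL hsum p (evenH p a)).mp b, a⟩
  have f2 : ∀ {k : ℕ} (p : (Fin k → ι) × (Fin k → ι)),
      (df c p ∈ Rg σ L ∧ π (df c p) = 0) ↔
        (A ((uni L p).map Prod.fst) ∧ Fixed m σ (uni L p)) := by
    intro k p
    rw [hπdf, cl_eq_zero_iff hA hm (un_zero h0 p), ← uni_fst]
    constructor
    · rintro ⟨a, b⟩
      exact ⟨b, (fixed_uni' L hL hsum p (evenH p (hA.hodge _ b))).mpr a⟩
    · rintro ⟨a, b⟩
      exact ⟨(fixed_uni' L hL hsum p (evenH p (hA.hodge _ a))).mp b, a⟩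
  have e1 : ∀ k, Nat.card {p : (Fin k → ι) × (Fin k → ι) //
      df c p ∈ Rg σ L ∧ π (df c p) ∈ (TT' A ⊓ (Rg σ L).map π : AddSubgroup _)} =
        Nat.card {p : (Fin k → ι) × (Fin k → ι) //
        IsHodge m ((uni L p).map Prod.fst) ∧ Fixed m σ (uni L p)} := fun k =>
    Nat.card_congr (Equiv.subtypeEquivRight fun p => f1 p)
  have e2 : ∀ k, Nat.card {p : (Fin k → ι) × (Fin k → ι) //
      df c p ∈ Rg σ L ∧ π (df c p) = 0} = Nat.card {p : (Fin k → ι) × (Fin k → ι) //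
        A ((uni L p).map Prod.fst) ∧ Fixed m σ (uni L p)} := fun k =>
    Nat.card_congr (Equiv.subtypeEquivRight fun p => f2 p)
  simp only [e1, e2] at h1 h2
  refine ⟨s, hs.trans hs0, h1, h2, ?_⟩
  rw [h3]
  refine forall_congr' fun k => forall_congr' fun p => ?_
  constructor
  · intro h a b
    have h4 := (f1 p).mpr ⟨a, b⟩
    exact ((f2 p).mp ⟨h4.1, h h4.1 h4.2⟩).1
  · intro h a b
    have h4 := (f1 p).mp ⟨a, b⟩
    exact ((f2 p).mpr ⟨h h4.1 h4.2, h4.2⟩).2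

end Law

end Pool.Agent.H180.FF
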