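import Pool.Agent.H180.FF.Stmts
import Pool.Agent.Q6.RS.Law

/-!
# Tate classes over finite fields: the main argument
-/

set_option autoImplicit false
set_option linter.unusedSectionVars false

namespace Pool.Agent.H180.FF

open Finset NumberField Filter Topology Pool.Agent.H916R2 Pool.Agent.Q59.FS Pool.Agent.Q59.RL
  Pool.Agent.H180.RS

section Gen

variable {m : ℕ} [NeZero m] {G : Type} [AddCommGroup G] {c : ZMod m → G}

lemma lft_Xc' (hc : OddDist c) (p q : ℕ) [Fact p.Prime] [Fact q.Prime] :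
    lft c hc (Xc m p q (cU m)) = Xc m p q c := by
  unfold Xc
  rw [XX_map]
  congr 1
  funext a
  exact lft_cU _ hc a

lemma lft_clU (hc : OddDist c) (s : Multiset (ZMod m)) :
    lft c hc (clU s).1 = (s.map c).sum := by
  unfold clU
  rw [map_multiset_sum, Multiset.map_map]
  congr 1
  exact Multiset.map_congr rfl fun a _ => lft_cU _ _ a

lemma toU_pow {z : ℂ} (hz : z ≠ 0) (n : ℕ) : toU (z ^ n) = (n : ℤ) • toU z := by
  induction n with
  | zero => simp [toU_one]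
  | succ n ih =>
    rw [pow_succ, toU_mul (pow_ne_zero _ hz) hz, ih]
    push_cast
    rw [add_zsmul, one_zsmul]

lemma toU_msum {κ : Type*} (s : Multiset κ) (f : κ → ℂ) (hf : ∀ i ∈ s, f i ≠ 0) :
    (s.map fun i => toU (f i)).sum = toU (s.map f).prod ∧ (s.map f).prod ≠ 0 := by
  induction s using Multiset.induction_on with
  | empty => simp [toU_one]
  | cons a s ih =>
    obtain ⟨h1, h2⟩ := ih fun i hi => hf i (Multiset.mem_cons_of_mem hi)
    have h3 := hf a (Multiset.mem_cons_self a s)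
    rw [Multiset.map_cons, Multiset.sum_cons, Multiset.map_cons, Multiset.prod_cons, h1,
      toU_mul h3 h2]
    exact ⟨rfl, mul_ne_zero h3 h2⟩

end Gen

section Two

variable {m p q : ℕ} [NeZero m]

/-- the exotic group of a degree with two primes -/
lemma mem_two (hodd : Odd m) (hpf : m.primeFactors = {p, q}) (hpq : p ≠ q)
    (hX : Xc m p q (cU m) ≠ 0) {w : UD m} (hw : w ∈ TD (cU m) m) :
    w = 0 ∨ w = Xc m p q (cU m) := by
  classical
  have hp : p ∈ m.primeFactors := by rw [hpf]; exact mem_insert_self _ _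
  have hq : q ∈ m.primeFactors := by rw [hpf]; exact mem_insert_of_mem (mem_singleton_self _)
  have h1 := Nat.prime_of_mem_primeFactors hp
  have h2 := Nat.prime_of_mem_primeFactors hq
  have h3 := Nat.dvd_of_mem_primeFactors hp
  have h4 := Nat.dvd_of_mem_primeFactors hq
  have : Fact p.Prime := ⟨h1⟩
  have : Fact q.Prime := ⟨h2⟩
  obtain ⟨s, hs, hc⟩ := card_T (cU_oddDist m)
  rw [Pool.Agent.Q6.RS.levels_eq hodd, hpf, card_pair hpq] at hs
  have hs1 : s ≤ 1 := by simpa using hs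
  have hcard : Nat.card (TD (cU m) m) ≤ 2 := by
    rw [hc]
    calc 2 ^ s ≤ 2 ^ 1 := Nat.pow_le_pow_right (by norm_num) hs1
      _ = 2 := by norm_num
  have hXm : Xc m p q (cU m) ∈ TD (cU m) m := by
    rw [mem_TD]
    refine ⟨xf m p q (gn p) (gn q) (lg p q) (lg q p), ?_, fun a _ => ?_, ?_⟩
    · exact xf_rel h3 h4 (Pool.Agent.Q6.RS.ne_two_of_dvd hodd h3)
        (Pool.Agent.Q6.RS.ne_two_of_dvd hodd h4) (gn_spec _) (gn_spec _)
        (lg_spec (Pool.Agent.Q6.RS.cast_ne h2 hpq)) (lg_spec (Pool.Agent.Q6.RS.cast_ne h1 hpq.symm))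
    · have := addOrderOf_dvd_card (x := a)
      rw [ZMod.card] at this
      exact Nat.le_of_dvd (NeZero.pos m) this
    · rw [← lc_apply, lc_xf]
      rfl
  have hfin : Finite (TD (cU m) m) := by
    apply Nat.finite_of_card_ne_zero
    rw [hc]
    positivity
  by_contra hcon
  push Not at hcon
  have : Fintype (TD (cU m) m) := Fintype.ofFinite _
  let f : Fin 3 → TD (cU m) m := ![0, ⟨Xc m p q (cU m), hXm⟩, ⟨w, hw⟩]
  have hf : Function.Injective f := by
    have a1 : (0 : TD (cU m) m) ≠ ⟨Xc m p q (cU m), hXm⟩ := fun h =>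
      hX (congrArg Subtype.val h).symm
    have a2 : (0 : TD (cU m) m) ≠ ⟨w, hw⟩ := fun h => hcon.1 (congrArg Subtype.val h).symm
    have a3 : (⟨Xc m p q (cU m), hXm⟩ : TD (cU m) m) ≠ ⟨w, hw⟩ := fun h =>
      hcon.2 (congrArg Subtype.val h).symm
    intro i j hij
    fin_cases i <;> fin_cases j <;> simp [f] at hij ⊢
    · exact a1 hij
    · exact a2 hij
    · exact a1 (Subtype.ext hij.symm)
    · exact a3 (Subtype.ext hij)
    · exact a2 (Subtype.ext hij.symm)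
    · exact a3 (Subtype.ext hij.symm)
  have h5 := Fintype.card_le_of_injective f hf
  rw [Fintype.card_fin, ← Nat.card_eq_fintype_card] at h5
  omega

end Two

section Value

variable {m p q : ℕ} [NeZero m] {x y z : ℤ} {ℓ : ℕ} [hl : Fact ℓ.Prime]

lemma exists_root (hp : p.Prime) (hp2 : p ≠ 2) (hpℓ : p ∣ ℓ - 1) (h4 : ℓ % 4 = 1) :
    ∃ r : ZMod ℓ, r ^ 2 = (st p : ZMod ℓ) := by
  have : Fact p.Prime := ⟨hp⟩
  have hl2 := hl.out.two_le
  have h1 : (ℓ : ZMod p) = 1 := by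
    have h2 : ((ℓ - 1 : ℕ) : ZMod p) = 0 := by rwa [ZMod.natCast_eq_zero_iff]
    rw [Nat.cast_sub (by omega), Nat.cast_one, sub_eq_zero] at h2
    exact h2
  have h2 : IsSquare ((p : ℕ) : ZMod ℓ) := by
    rw [ZMod.exists_sq_eq_prime_iff_of_mod_four_eq_one h4 hp2, h1]
    exact IsSquare.one
  have h3 : IsSquare (-1 : ZMod ℓ) := ZMod.exists_sq_eq_neg_one_iff.mpr (by omega)
  obtain ⟨a, ha⟩ := h2
  obtain ⟨b, hb⟩ := h3
  unfold st
  split_ifs
  · exact ⟨a, by push_cast; rw [ha, sq]⟩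
  · refine ⟨a * b, ?_⟩
    push_cast
    rw [ha, mul_pow, sq b, ← hb, sq]
    ring

/-- the value of the exotic class at a negative prime -/
lemma value_neg (h3 : PropSqM) (h4 : PropEvM) (hodd : Odd m) (hp : p.Prime) (hq : q.Prime)
    (hpm : p ∣ m) (hqm : q ∣ m) (hpq : p ≠ q) (hq4 : q % 4 = 1)
    (hsq : IsSquare ((p : ℕ) : ZMod q)) (hxy : IsCoprime x y) (hz : z ≠ 0)
    (hN : x ^ 2 - st p * y ^ 2 = q * z ^ 2) (hneg : Neg m p x y z ℓ)
    {χ : MulChar (ZMod ℓ) ℂ} {ψ : AddChar (ZMod ℓ) ℂ} (hψ : ψ ≠ 1) (hχ : orderOf χ = m) :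
    ev p q ψ (χ ^ (m / p)) (χ ^ (m / q)) ^ m = -1 := by
  obtain ⟨_, h8, hℓz, hr⟩ := hneg
  have hm0 : m ≠ 0 := NeZero.ne m
  have hl2 := hl.out.two_le
  have hp2 := Pool.Agent.Q6.RS.ne_two_of_dvd hodd hpm
  have hq2 := Pool.Agent.Q6.RS.ne_two_of_dvd hodd hqm
  have h8' : 8 ∣ ℓ - 1 := (Dvd.intro _ rfl).trans h8
  have hm' : m ∣ ℓ - 1 := (Dvd.intro_left _ rfl).trans h8
  have horp : ∀ p, p.Prime → p ∣ m → orderOf (χ ^ (m / p)) = p := by
    intro p hp hpm
    rw [orderOf_pow_of_dvd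
      (Nat.div_pos (Nat.le_of_dvd (Nat.pos_of_ne_zero hm0) hpm) hp.pos).ne'
      (by rw [hχ]; exact Nat.div_dvd_of_dvd hpm), hχ, Nat.div_div_self hpm hm0]
  obtain ⟨r, hr2⟩ := exists_root (ℓ := ℓ) hp hp2 (hpm.trans hm') (by omega)
  have g1 := h3 ℓ p q hp hq hp2 hq2 hpq _ _ ψ hψ (horp p hp hpm) (horp q hq hqm)
  have g2 := h4 ℓ p q hp hq hp2 hq2 hpq (by omega) _ _ ψ hψ (horp p hp hpm) (horp q hq hqm)
    g1.1 hq4 hsq x y z hxy hz hℓz hN r hr2
  rw [quadraticChar_neg_one_iff_not_isSquare.mpr (hr r hr2)] at g2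
  obtain ⟨n, hn⟩ : p * q ∣ m :=
    Nat.Coprime.mul_dvd_of_dvd_of_dvd ((Nat.coprime_primes hp hq).mpr hpq) hpm hqm
  have hn' : Odd n := hodd.of_dvd_nat ⟨p * q, by rw [hn, mul_comm]⟩
  have h5 : ev p q ψ (χ ^ (m / p)) (χ ^ (m / q)) ^ m =
      (ev p q ψ (χ ^ (m / p)) (χ ^ (m / q)) ^ (p * q)) ^ n := by
    rw [← pow_mul, ← hn]
  rw [h5, g2]
  push_cast
  exact hn'.neg_one_pow

lemma toU_neg_one : toU (-1 : ℂ) ≠ 0 := by
  intro h
  rw [← toU_one, toU_inj (by norm_num) one_ne_zero] at h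
  norm_num at h

/-- **The class of a Tate character at a negative prime is zero.** -/
theorem class_zero (h1 : PropDistM) (h2 : PropValM) (h3 : PropSqM) (h4 : PropEvM) (hodd : Odd m)
    (hpf : m.primeFactors = {p, q}) (hpq : p ≠ q) (hq4 : q % 4 = 1)
    (hsq : IsSquare ((p : ℕ) : ZMod q)) (hxy : IsCoprime x y) (hz : z ≠ 0)
    (hN : x ^ 2 - st p * y ^ 2 = q * z ^ 2) (hneg : Neg m p x y z ℓ)
    {χ : MulChar (ZMod ℓ) ℂ} {ψ : AddChar (ZMod ℓ) ℂ} (hψ : ψ ≠ 1) (hχ : orderOf χ = m)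
    {A : Multiset (ZMod m) → Prop} (hA : Adm m A) {s : Multiset (ZMod m)} (hH : IsHodge m s)
    {k : ℕ} (hk : Odd k) (hprod : (s.map fun a => nz ψ (χ ^ a.val)).prod ^ (k * m) = 1) :
    clU s = 0 := by
  have hp' : p ∈ m.primeFactors := by rw [hpf]; exact mem_insert_self _ _
  have hq' : q ∈ m.primeFactors := by rw [hpf]; exact mem_insert_of_mem (mem_singleton_self _)
  have hp := Nat.prime_of_mem_primeFactors hp'
  have hq := Nat.prime_of_mem_primeFactors hq'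
  have hpm := Nat.dvd_of_mem_primeFactors hp'
  have hqm := Nat.dvd_of_mem_primeFactors hq'
  have : Fact p.Prime := ⟨hp⟩
  have : Fact q.Prime := ⟨hq⟩
  have hv := value_neg h3 h4 hodd hp hq hpm hqm hpq hq4 hsq hxy hz hN hneg hψ hχ
  have hc := h1 ℓ m hodd χ ψ hψ hχ
  have hX : lft (cM (m := m) χ ψ) hc (Xc m p q (cU m)) = toU (-1) := by
    rw [lft_Xc', h2 ℓ m p q hodd hp hq hpq hpm hqm χ ψ hψ hχ, hv]
  have hX0 : Xc m p q (cU m) ≠ 0 := by
    intro h
    rw [h, map_zero] at hX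
    exact toU_neg_one hX.symm
  have hT : clU s ∈ (TD (cU m) m).prod (⊥ : AddSubgroup (ZMod 2)) := by
    rw [← Pool.Agent.Q6.RS.nat_mem_iff hA, Pool.Agent.Q6.RS.nat_clU]
    exact (cl_mem_iff hA hH.1).mpr hH
  rw [AddSubgroup.mem_prod] at hT
  have hsum : lft (cM (m := m) χ ψ) hc (clU s).1 =
      (m : ℤ) • toU (s.map fun a => nz ψ (χ ^ a.val)).prod ∧
        (s.map fun a => nz ψ (χ ^ a.val)).prod ≠ 0 := by
    have hne : ∀ a ∈ s, nz ψ (χ ^ a.val) ≠ 0 := by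
      intro a ha h
      unfold nz at h
      rcases div_eq_zero_iff.mp h with h5 | h5
      · exact gauss_ne (pw_ne_one hχ (fun h0 => hH.1 (h0 ▸ ha))) hψ h5
      · rw [Complex.ofReal_eq_zero] at h5
        exact (Real.sqrt_pos.2 (by exact_mod_cast hl.out.pos)).ne' h5
    obtain ⟨g1, g2⟩ := toU_msum s _ hne
    refine ⟨?_, g2⟩
    rw [lft_clU, ← g1, ← Multiset.sum_map_zsmul]
    congr 1
    refine Multiset.map_congr rfl fun a ha => ?_
    have ha0 : a ≠ 0 := fun h0 => hH.1 (h0 ▸ ha)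
    unfold cM cD
    rw [if_neg ha0]
  have hk1 : (k : ℤ) • lft (cM (m := m) χ ψ) hc (clU s).1 = 0 := by
    rw [hsum.1, smul_smul, ← toU_one, ← hprod, toU_pow hsum.2]
    push_cast
    rfl
  refine Prod.ext ?_ hT.2
  rcases mem_two hodd hpf hpq hX0 hT.1 with h5 | h5
  · exact h5
  · exfalso
    rw [h5, hX, ← toU_pow (by norm_num), hk.neg_one_pow] at hk1
    exact toU_neg_one hk1

end Value

end Pool.Agent.H180.FF
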