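import Pool.Agent.H180.FF.Main
import Pool.Agent.Q202.RS.Val
import Pool.Agent.H180.RS.Core

/-!
# The independence of the exotic classes of split pairs over number fields
-/

set_option autoImplicit false
set_option linter.unusedSectionVars false

namespace Pool.Agent.H180.FF

open Finset NumberField Filter Topology Pool.Agent.H916R2 Pool.Agent.Q59.FS Pool.Agent.Q59.RL
  Pool.Agent.H180.RS Pool.Agent.Q202.RS

section Gen

variable {ι : Type} [Fintype ι] {G H : Type*} [AddCommGroup G] [AddCommGroup H]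

lemma zsmul_lc (u : ι → G) (x : ι → ℤ) (n : ℤ) : n • lc u x = lc (fun i => n • u i) x := by
  rw [lc_apply, lc_apply, smul_sum]
  exact sum_congr rfl fun i _ => smul_comm _ _ _

lemma hom_lc (f : G →+ H) (u : ι → G) (x : ι → ℤ) : f (lc u x) = lc (fun i => f (u i)) x := by
  rw [lc_apply, lc_apply, map_sum]
  exact sum_congr rfl fun i _ => map_zsmul f _ _

lemma fst_lc (u : ι → G × H) (x : ι → ℤ) : (lc u x).1 = lc (fun i => (u i).1) x :=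
  hom_lc (AddMonoidHom.fst G H) u x

end Gen

section Eval

variable {K : Type} [Field K] [NumberField K] {m : ℕ} [NeZero m] {σ : K →+* ℂ} {ℓ : ℕ}
  [hl : Fact ℓ.Prime] {χ : MulChar (ZMod ℓ) ℂ} {ψ : AddChar (ZMod ℓ) ℂ} {φ : 𝓞 K →+* ZMod ℓ}

lemma gm_single' (hφ : Function.Surjective φ) (hχ : IsSymbol m σ φ χ) (hψ : ψ ≠ 1)
    (z : ZMod m × 𝓞 K) :
    gm (mkD hφ hχ hψ) {z} = nz ψ (χ ^ z.1.val) / (χ ^ z.1.val) (φ z.2) := by
  have h1 : gm (mkD hφ hχ hψ) {z} = gaussSum (χ ^ z.1.val) ψ / (χ ^ z.1.val) (φ z.2) /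
      ((Real.sqrt (Fintype.card (ZMod ℓ)) : ℝ) : ℂ) ^ (1 : ℕ) := by
    unfold gm Pool.Agent.Q59.RL.BB bet rt mkD
    simp
  rw [h1, pow_one, ZMod.card, div_right_comm]
  rfl

lemma toU_gmM (hφ : Function.Surjective φ) (hχ : IsSymbol m σ φ χ) (hψ : ψ ≠ 1)
    (hc : OddDist (cM (m := m) χ ψ)) (s : Multiset (ZMod m × 𝓞 K)) (h0 : ∀ z ∈ s, z.1 ≠ 0)
    (h1 : ∀ z ∈ s, φ z.2 ≠ 0) :
    (m : ℤ) • toU (gm (mkD hφ hχ hψ) s) = lft (cM (m := m) χ ψ) hc (clU (s.map Prod.fst)).1 := by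
  induction s using Multiset.induction_on with
  | empty =>
    rw [gm_zero, toU_one, zsmul_zero]
    unfold clU
    simp
  | cons z s ih =>
    have e1 : (z ::ₘ s) = {z} + s := rfl
    have hz0 := h0 z (Multiset.mem_cons_self z s)
    have hz1 := h1 z (Multiset.mem_cons_self z s)
    have hs0 : ∀ w ∈ s, w.1 ≠ 0 := fun w hw => h0 w (Multiset.mem_cons_of_mem hw)
    have hs1 : ∀ w ∈ s, φ w.2 ≠ 0 := fun w hw => h1 w (Multiset.mem_cons_of_mem hw)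
    have n1 : gm (mkD hφ hχ hψ) {z} ≠ 0 := gm_ne
      (fun w hw => by rw [Multiset.mem_singleton.mp hw]; exact hz0)
      (fun w hw => by rw [Multiset.mem_singleton.mp hw]; exact hz1)
    have n2 : gm (mkD hφ hχ hψ) s ≠ 0 := gm_ne hs0 hs1
    have e2 : (clU ((z ::ₘ s).map Prod.fst)).1 = cU m z.1 + (clU (s.map Prod.fst)).1 := by
      unfold clU
      simp
    rw [e2, map_add, lft_cU, e1, gm_add, toU_mul n1 n2, zsmul_add, ih hs0 hs1]
    congr 1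
    -- one entry
    have n4 : nz ψ (χ ^ z.1.val) ≠ 0 := by
      rw [gm_single' hφ hχ hψ] at n1
      exact fun h => n1 (by rw [h, zero_div])
    have hχm : χ ^ m = 1 := by
      conv_lhs => rw [← hχ.order]
      exact pow_orderOf_eq_one χ
    have h6 : (gm (mkD hφ hχ hψ) {z}) ^ m = nz ψ (χ ^ z.1.val) ^ m := by
      rw [gm_single' hφ hχ hψ, div_pow]
      have h7 : (χ ^ z.1.val) (φ z.2) ^ m = 1 := by
        obtain ⟨u, hu⟩ := isUnit_iff_ne_zero.mpr hz1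
        rw [← hu, ← MulChar.pow_apply_coe, ← pow_mul, mul_comm, pow_mul, hχm, one_pow,
          MulChar.one_apply_coe]
      rw [h7, div_one]
    rw [← toU_pow n1, h6, toU_pow n4]
    unfold cM cD
    rw [if_neg hz0]

end Eval

section Indep

/-- the data of a split pair -/
def Pair (m : ℕ) (e : ℕ × ℕ) (x y z : ℤ) : Prop :=
  e.1.Prime ∧ e.2.Prime ∧ e.1 ∣ m ∧ e.2 ∣ m ∧ e.1 ≠ e.2 ∧ e.2 % 4 = 1 ∧
    IsSquare ((e.1 : ℕ) : ZMod e.2) ∧ IsCoprime x y ∧ z ≠ 0 ∧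
    x ^ 2 - st e.1 * y ^ 2 = e.2 * z ^ 2

/-- **Sums of exotic classes of split pairs are not fixed.** -/
theorem indep2 (h1 : PropDistM) (h2 : PropValM) (h3 : PropSqM) (h4 : PropEvM) (h6 : PropCheb2)
    (h8 : PropSym) (K : Type) [Field K] [NumberField K] (σ : K →+* ℂ) (m : ℕ) [NeZero m]
    (hodd : Odd m) (ζ : 𝓞 K) (hζ : IsPrimitiveRoot ζ m) (ι : Type) [Fintype ι] [DecidableEq ι]
    [Nonempty ι] (L : ι → Multiset (ZMod m × 𝓞 K)) (hL : ∀ i, ∀ z ∈ L i, z.1 ≠ 0 ∧ z.2 ≠ 0)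
    (S : Finset (ℕ × ℕ)) (X Y Z : ℕ × ℕ → ℤ) (hS : ∀ e ∈ S, Pair m e (X e) (Y e) (Z e))
    (ρ : ℕ × ℕ → K) (hρ : ∀ e ∈ S, ρ e ^ 2 = (st e.1 : K))
    (hns : ∀ E ⊆ S, E.Nonempty → ∀ d : ℤ, d = 1 ∨ d = -1 ∨ d = 2 ∨ d = -2 →
      ¬ IsSquare ((d : K) * ∏ e ∈ E, ((X e : K) + Y e * ρ e))) :
    ∀ E ⊆ S, E.Nonempty → ∀ x ∈ Rg σ L,
      lc (fun i => clU ((L i).map Prod.fst)) x ≠ (∑ e ∈ E, Xc m e.1 e.2 (cU m), 0) := by
  classical
  intro E hE hne x hx heq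
  obtain ⟨n0, hn0⟩ := hx
  obtain ⟨N0, hN0⟩ := exists_common (σ := σ) L hL
  have hm0 : m ≠ 0 := NeZero.ne m
  obtain ⟨ℓ, hl, φ, r, hB, h8m, hr, hprod⟩ := h6 K m (n0 + N0 + ∑ e ∈ E, (Z e).natAbs) hodd
    ⟨(ζ : K), hζ.map_of_injective (f := algebraMap (𝓞 K) K)
      (FaithfulSMul.algebraMap_injective (𝓞 K) K)⟩ E (fun e => st e.1.1) (fun e => X e.1)
    (fun e => Y e.1) (fun e => ρ e.1) (fun e => hρ e.1 (hE e.2)) (by
      intro d hd
      have := hns E hE hne d hd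
      rwa [← prod_coe_sort E] at this)
  have hl2 := hl.out.two_le
  have h8' : 8 ∣ ℓ - 1 := (Dvd.intro _ rfl).trans h8m
  have hm' : m ∣ ℓ - 1 := (Dvd.intro_left _ rfl).trans h8m
  have hφ : Function.Surjective φ := ZMod.ringHom_surjective φ
  obtain ⟨χ, hχ⟩ := h8 K m ζ hζ (Nat.pos_of_ne_zero hm0) σ (ZMod ℓ) φ hφ
    (by rw [ZMod.card]; exact hm')
  obtain ⟨ψ, hψ, _⟩ := exists_psi ℓ
  have hc := h1 ℓ m hodd χ ψ hψ hχ.order
  -- the relation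
  have hlc : lc (fun i => toU (gm (mkD hφ hχ hψ) (L i))) x = 0 := by
    apply hn0
    change n0 < Fintype.card (ZMod ℓ)
    rw [ZMod.card]
    omega
  have hcoef : ∀ i, ∀ z ∈ L i, φ z.2 ≠ 0 := by
    have g1 := hN0 (mkD hφ hχ hψ) (by
      change N0 < Fintype.card (ZMod ℓ)
      rw [ZMod.card]
      omega)
    exact g1
  have hlc2 : (m : ℤ) • lc (fun i => toU (gm (mkD hφ hχ hψ) (L i))) x =
      lft (cM (m := m) χ ψ) hc (lc (fun i => clU ((L i).map Prod.fst)) x).1 := by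
    rw [zsmul_lc, fst_lc, hom_lc, lc_apply, lc_apply]
    refine sum_congr rfl fun i _ => ?_
    rw [toU_gmM hφ hχ hψ hc (L i) (fun z hz => (hL i z hz).1) (hcoef i)]
  rw [hlc, zsmul_zero, heq] at hlc2
  simp only [map_sum] at hlc2
  -- the values
  have horp : ∀ p, p.Prime → p ∣ m → orderOf (χ ^ (m / p)) = p := by
    intro p hp hpm
    rw [orderOf_pow_of_dvd
      (Nat.div_pos (Nat.le_of_dvd (Nat.pos_of_ne_zero hm0) hpm) hp.pos).ne'
      (by rw [hχ.order]; exact Nat.div_dvd_of_dvd hpm), hχ.order, Nat.div_div_self hpm hm0]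
  have hval : ∀ e : E, lft (cM (m := m) χ ψ) hc (Xc m e.1.1 e.1.2 (cU m)) =
      toU ((quadraticChar (ZMod ℓ) ((X e.1 : ZMod ℓ) + Y e.1 * r e) : ℤ) : ℂ) := by
    intro e
    obtain ⟨hp, hq, hpm, hqm, hpq, hq4, hsq, hxy, hz, hN⟩ := hS e.1 (hE e.2)
    have : Fact e.1.1.Prime := ⟨hp⟩
    have : Fact e.1.2.Prime := ⟨hq⟩
    have hp2 := Pool.Agent.Q6.RS.ne_two_of_dvd hodd hpm
    have hq2 := Pool.Agent.Q6.RS.ne_two_of_dvd hodd hqm
    have hℓz : ¬ (ℓ : ℤ) ∣ Z e.1 := by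
      intro hdvd
      have g1 := Int.natAbs_dvd_natAbs.mpr hdvd
      rw [Int.natAbs_natCast] at g1
      have g2 := Nat.le_of_dvd (Int.natAbs_pos.mpr hz) g1
      have g3 : (Z e.1).natAbs ≤ ∑ e ∈ E, (Z e).natAbs :=
        single_le_sum (f := fun e => (Z e).natAbs) (fun _ _ => Nat.zero_le _) e.2
      omega
    have g1 := h3 ℓ e.1.1 e.1.2 hp hq hp2 hq2 hpq _ _ ψ hψ (horp _ hp hpm) (horp _ hq hqm)
    have g2 := h4 ℓ e.1.1 e.1.2 hp hq hp2 hq2 hpq (by omega) _ _ ψ hψ (horp _ hp hpm)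
      (horp _ hq hqm) g1.1 hq4 hsq (X e.1) (Y e.1) (Z e.1) hxy hz hℓz hN (r e) (hr e)
    rw [lft_Xc', h2 ℓ m e.1.1 e.1.2 hodd hp hq hpq hpm hqm χ ψ hψ hχ.order]
    congr 1
    obtain ⟨n, hn⟩ : e.1.1 * e.1.2 ∣ m :=
      Nat.Coprime.mul_dvd_of_dvd_of_dvd ((Nat.coprime_primes hp hq).mpr hpq) hpm hqm
    have hn' : Odd n := hodd.of_dvd_nat ⟨e.1.1 * e.1.2, by rw [mul_comm, ← hn]⟩
    have h5 : ev e.1.1 e.1.2 ψ (χ ^ (m / e.1.1)) (χ ^ (m / e.1.2)) ^ m =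
        (ev e.1.1 e.1.2 ψ (χ ^ (m / e.1.1)) (χ ^ (m / e.1.2)) ^ (e.1.1 * e.1.2)) ^ n := by
      rw [← pow_mul, ← hn]
    rw [h5, g2]
    have g3 : (quadraticChar (ZMod ℓ) ((X e.1 : ZMod ℓ) + Y e.1 * r e) = 1) ∨
        (quadraticChar (ZMod ℓ) ((X e.1 : ZMod ℓ) + Y e.1 * r e) = -1) := by
      have g4 := g1.1
      rw [mul_comm 2, pow_mul, g2] at g4
      have g5 : quadraticChar (ZMod ℓ) ((X e.1 : ZMod ℓ) + Y e.1 * r e) ^ 2 = 1 := by
        exact_mod_cast g4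
      rcases mul_self_eq_one_iff.mp ((sq _).symm.trans g5) with h | h
      · exact Or.inl h
      · exact Or.inr h
    rcases g3 with g3 | g3
    · rw [g3]; push_cast; exact one_pow n
    · rw [g3]; push_cast; exact hn'.neg_one_pow
  rw [← sum_coe_sort E (fun e => lft (cM (m := m) χ ψ) hc (Xc m e.1 e.2 (cU m))),
    sum_congr rfl fun e _ => hval e, ← toU_prod] at hlc2
  · rw [← Int.cast_prod, hprod] at hlc2
    push_cast at hlc2
    exact toU_neg_one hlc2.symm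
  · intro e _ h
    have g1 : quadraticChar (ZMod ℓ) ((X e.1 : ZMod ℓ) + Y e.1 * r e) = 0 := by exact_mod_cast h
    rw [prod_eq_zero (mem_univ e) g1] at hprod
    norm_num at hprod

end Indep

end Pool.Agent.H180.FF
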