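import Pool.Agent.H180.FF.Stmts

/-!
# Products which are not squares over fields of odd degree over an abelian field: statement
-/

set_option autoImplicit false

namespace Pool.Agent.H180.FF

open Finset NumberField Pool.Agent.H180.RS

/-- **ODD.** Products over split pairs are not squares in fields of odd degree over an abelian
field. -/
def PropOdd : Prop := ∀ (K : Type) [Field K] [NumberField K] (m n : ℕ), Odd m → n ≠ 0 →
  (∃ ζ : K, IsPrimitiveRoot ζ m) → ∀ F : IntermediateField ℚ K,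
  Nonempty (F →+* CyclotomicField n ℚ) → Odd (Module.finrank F K) →
  ∀ (E : Finset (ℕ × ℕ)) (x y z : ℕ × ℕ → ℤ) (ρ : ℕ × ℕ → K), E.Nonempty →
  (∀ e ∈ E, e.1.Prime ∧ e.2.Prime ∧ e.1 ∣ m ∧ e.2 ∣ m ∧ e.1 ≠ e.2 ∧ e.2 % 4 = 1 ∧ e.swap ∉ E ∧
    x e ^ 2 - st e.1 * y e ^ 2 = e.2 * z e ^ 2 ∧ z e ≠ 0 ∧ ρ e ^ 2 = (st e.1 : K)) →
  ∀ d : ℤ, d = 1 ∨ d = -1 ∨ d = 2 ∨ d = -2 →
    ¬ IsSquare ((d : K) * ∏ e ∈ E, ((x e : K) + y e * ρ e))

end Pool.Agent.H180.FF
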