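import Pool.Agent.H180.FF.Num
import Pool.Agent.H180.FF.Law2
import Pool.Agent.H180.FF.Stmts2
import Pool.Agent.Q34.FF.DistM
import Pool.Agent.Q34.FF.ValSqM
import Pool.Agent.Q34.FF.EvM
import Pool.Agent.Q14.FF.Cheb2
import Pool.Agent.Q169.RS.Sym
import Pool.Agent.Q169.RS.Conics

/-!
# Exotic classes of split pairs over number fields: the law
-/

set_option autoImplicit false
set_option linter.unusedSectionVars false

namespace Pool.Agent.H180.FF

open Finset NumberField Filter Topology Pool.Agent.H916R2 Pool.Agent.Q59.FS Pool.Agent.Q59.RL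
  Pool.Agent.H180.RS

/-- the condition on squares -/
def Ind {K : Type} [Field K] (S : Finset (ℕ × ℕ)) (x y : ℕ × ℕ → ℤ) (ρ : ℕ × ℕ → K) : Prop :=
  ∀ E ⊆ S, E.Nonempty → ∀ d : ℤ, d = 1 ∨ d = -1 ∨ d = 2 ∨ d = -2 →
    ¬ IsSquare ((d : K) * ∏ e ∈ E, ((x e : K) + y e * ρ e))

/-- **The law for number fields.** -/
theorem num_law (K : Type) [Field K] [NumberField K] (σ : K →+* ℂ) (m : ℕ) [NeZero m]
    (hm2 : 2 ≤ m) (hodd : Odd m) (ζ : K) (hζ : IsPrimitiveRoot ζ m)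
    {A : Multiset (ZMod m) → Prop} (hA : Adm m A)
    (S : Finset (ℕ × ℕ)) (x y z : ℕ × ℕ → ℤ) (hS : ∀ e ∈ S, Pair m e (x e) (y e) (z e))
    (ρ : ℕ × ℕ → K) (hρ : ∀ e ∈ S, ρ e ^ 2 = (st e.1 : K)) (hns : Ind S x y ρ)
    (ι : Type) [Fintype ι] [Nonempty ι]
    (L : ι → Multiset (ZMod m × 𝓞 K)) (hL : ∀ i, ∀ z ∈ L i, z.1 ≠ 0 ∧ z.2 ≠ 0)
    (hsum : ∀ i, ((L i).map Prod.fst).sum = 0) :
    ∃ s ≤ 2 ^ (m.primeFactors.card - 1) - 1 - S.card,
      (∀ k : ℕ, Nat.card {p : (Fin k → ι) × (Fin k → ι) //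
          IsHodge m ((uni L p).map Prod.fst) ∧ Fixed m σ (uni L p)} ≤
        2 ^ s * Nat.card {p : (Fin k → ι) × (Fin k → ι) //
          A ((uni L p).map Prod.fst) ∧ Fixed m σ (uni L p)}) ∧
      Tendsto (fun k : ℕ => (Nat.card {p : (Fin k → ι) × (Fin k → ι) //
          A ((uni L p).map Prod.fst) ∧ Fixed m σ (uni L p)} : ℝ) /
        Nat.card {p : (Fin k → ι) × (Fin k → ι) //
          IsHodge m ((uni L p).map Prod.fst) ∧ Fixed m σ (uni L p)}) atTop (𝓝 (1 / 2 ^ s)) ∧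
      (s = 0 ↔ ∀ (k : ℕ) (p : (Fin k → ι) × (Fin k → ι)),
        IsHodge m ((uni L p).map Prod.fst) → Fixed m σ (uni L p) → A ((uni L p).map Prod.fst)) := by
  classical
  refine law2 hA hm2 hodd σ ι L hL hsum S (fun e he => ?_) ?_
  · obtain ⟨h1, h2, h3, h4, h5, _⟩ := hS e he
    exact ⟨h1, h2, h3, h4, h5⟩
  · exact indep2 Pool.Agent.Q34.FF.distM Pool.Agent.Q34.FF.valM Pool.Agent.Q34.FF.sqM
      Pool.Agent.Q34.FF.evM' Pool.Agent.Q14.FF.cheb2 Pool.Agent.Q169.RS.sym K σ m hodd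
      hζ.toInteger hζ.toInteger_isPrimitiveRoot ι L hL S x y z hS ρ hρ hns

/-- square roots in fields with roots of unity -/
lemma exists_rootK {K : Type} [Field K] [NumberField K] {m p : ℕ} [NeZero m] {ζ : K}
    (hζ : IsPrimitiveRoot ζ m) (hp : p.Prime) (hp2 : p ≠ 2) (hpm : p ∣ m) :
    ∃ ρ : K, ρ ^ 2 = (st p : K) := by
  obtain ⟨L, _, _, hL⟩ := exists_cyc m
  obtain ⟨e⟩ := IsCyclotomicExtension.nonempty_algEquiv_adjoin_of_exists_isPrimitiveRoot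
    {m} ℚ L K (fun n hn _ => by
      rw [Set.mem_singleton_iff] at hn
      subst hn
      exact ⟨_, hζ⟩)
  have : Fact p.Prime := ⟨hp⟩
  obtain ⟨ρ, h1, _⟩ := exists_sqrt (L := L) hpm hp2 (gn_spec p)
  refine ⟨((IntermediateField.val _).toRingHom.comp e.toRingEquiv.toRingHom) ρ, ?_⟩
  rw [← map_pow, h1, map_intCast]

/-- the oriented pairs -/
def orient (e : ℕ × ℕ) : ℕ × ℕ := if e.2 % 4 = 1 then e else e.swap

/-- all pairs are split -/
def AllSplit (m : ℕ) : Prop := ∀ p ∈ m.primeFactors, ∀ q ∈ m.primeFactors, p ≠ q →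
  (p % 4 = 1 ∨ q % 4 = 1) ∧ IsSquare ((p : ℕ) : ZMod q)

/-- the set of the oriented pairs -/
noncomputable def oprs (m : ℕ) : Finset (ℕ × ℕ) := by
  classical
  exact (prs m).image orient

lemma orient_or (e : ℕ × ℕ) : orient e = e ∨ orient e = e.swap := by
  unfold orient
  split_ifs
  · exact Or.inl rfl
  · exact Or.inr rfl

lemma prs_lt {m : ℕ} {e : ℕ × ℕ} (he : e ∈ prs m) : e.1 < e.2 := by
  unfold prs at he
  exact (mem_filter.mp he).2

lemma orient_inj {m : ℕ} {e f : ℕ × ℕ} (he : e ∈ prs m) (hf : f ∈ prs m)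
    (h : orient e = orient f ∨ orient e = (orient f).swap) : e = f := by
  have h1 := prs_lt he
  have h2 := prs_lt hf
  obtain ⟨a, b⟩ := e
  obtain ⟨c, d⟩ := f
  simp only at h1 h2
  rcases orient_or (a, b) with h3 | h3 <;> rcases orient_or (c, d) with h4 | h4 <;>
    rw [h3, h4] at h <;> simp only [Prod.swap_prod_mk, Prod.mk.injEq] at h ⊢ <;> omega

lemma card_oprs (m : ℕ) : (oprs m).card = m.primeFactors.card.choose 2 := by
  classical
  unfold oprs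
  rw [card_image_of_injOn]
  · unfold prs
    exact Pool.Agent.Q6.RS.card_pairs _
  · intro e he f hf h
    exact orient_inj he hf (Or.inl h)

lemma oprs_spec {m : ℕ} (hs : AllSplit m) {e : ℕ × ℕ} (he : e ∈ oprs m) :
    e.1.Prime ∧ e.2.Prime ∧ e.1 ∣ m ∧ e.2 ∣ m ∧ e.1 ≠ e.2 ∧ e.2 % 4 = 1 ∧
      IsSquare ((e.1 : ℕ) : ZMod e.2) ∧ e.swap ∉ oprs m := by
  classical
  unfold oprs at he ⊢
  obtain ⟨f, hf, rfl⟩ := mem_image.mp he
  have h1 := hf
  unfold prs at h1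
  rw [mem_filter, mem_product] at h1
  obtain ⟨⟨hp, hq⟩, hlt⟩ := h1
  have hswap : (orient f).swap ∉ (prs m).image orient := by
    intro h
    obtain ⟨g, hg, hgf⟩ := mem_image.mp h
    have h2 := orient_inj hg hf (Or.inr hgf)
    rw [h2] at hgf
    have h3 : (orient f).1 = (orient f).2 := by
      have := congrArg Prod.fst hgf
      rwa [Prod.fst_swap] at this
    rcases orient_or f with h4 | h4 <;> rw [h4] at h3
    · omega
    · simp only [Prod.fst_swap, Prod.snd_swap] at h3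
      omega
  have a1 := Nat.prime_of_mem_primeFactors hp
  have a2 := Nat.prime_of_mem_primeFactors hq
  have a3 := Nat.dvd_of_mem_primeFactors hp
  have a4 := Nat.dvd_of_mem_primeFactors hq
  have b1 := hs _ hp _ hq hlt.ne
  have b2 := hs _ hq _ hp hlt.ne'
  by_cases hh : f.2 % 4 = 1
  · have h5 : orient f = f := by unfold orient; rw [if_pos hh]
    rw [h5] at hswap ⊢
    exact ⟨a1, a2, a3, a4, hlt.ne, hh, b1.2, hswap⟩
  · have h5 : orient f = f.swap := by unfold orient; rw [if_neg hh]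
    rw [h5] at hswap ⊢
    exact ⟨a2, a1, a4, a3, hlt.ne', b1.1.resolve_right hh, b2.2, hswap⟩

/-- the data for all pairs -/
theorem all_data (hOdd : PropOdd) (K : Type) [Field K] [NumberField K] (m n : ℕ) [NeZero m]
    (hodd : Odd m) (hn : n ≠ 0) (ζ : K) (hζ : IsPrimitiveRoot ζ m) (F : IntermediateField ℚ K)
    (hF : Nonempty (F →+* CyclotomicField n ℚ)) (hodF : Odd (Module.finrank F K))
    (hs : AllSplit m) : ∃ (x y z : ℕ × ℕ → ℤ) (ρ : ℕ × ℕ → K),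
      (∀ e ∈ oprs m, Pair m e (x e) (y e) (z e)) ∧ (∀ e ∈ oprs m, ρ e ^ 2 = (st e.1 : K)) ∧
        Ind (oprs m) x y ρ := by
  classical
  have h1 : ∀ e : ℕ × ℕ, ∃ x y z : ℤ, e ∈ oprs m → Pair m e x y z := by
    intro e
    by_cases he : e ∈ oprs m
    · obtain ⟨a1, a2, a3, a4, a5, a6, a7, _⟩ := oprs_spec hs he
      have hp2 := Pool.Agent.Q6.RS.ne_two_of_dvd hodd a3
      obtain ⟨x, y, z, b1, b2, b3⟩ := Pool.Agent.Q169.RS.con.2.1 e.1 e.2 a1 a2 hp2 a5 a6 a7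
      exact ⟨x, y, z, fun _ => ⟨a1, a2, a3, a4, a5, a6, a7, b1, b2, b3⟩⟩
    · exact ⟨0, 0, 0, fun h => absurd h he⟩
  have h2 : ∀ e : ℕ × ℕ, ∃ ρ : K, e ∈ oprs m → ρ ^ 2 = (st e.1 : K) := by
    intro e
    by_cases he : e ∈ oprs m
    · obtain ⟨a1, a2, a3, _⟩ := oprs_spec hs he
      obtain ⟨ρ, hρ⟩ := exists_rootK hζ a1 (Pool.Agent.Q6.RS.ne_two_of_dvd hodd a3) a3
      exact ⟨ρ, fun _ => hρ⟩
    · exact ⟨0, fun h => absurd h he⟩
  choose x y z hxyz using h1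
  choose ρ hρ using h2
  refine ⟨x, y, z, ρ, hxyz, hρ, ?_⟩
  intro E hE hne d hd
  refine hOdd K m n hodd hn ⟨ζ, hζ⟩ F hF hodF E x y z ρ hne (fun e he => ?_) d hd
  obtain ⟨a1, a2, a3, a4, a5, a6, a7, a8⟩ := oprs_spec hs (hE he)
  obtain ⟨_, _, _, _, _, _, _, _, b2, b3⟩ := hxyz e (hE he)
  exact ⟨a1, a2, a3, a4, a5, a6, fun h => a8 (hE h), b3, b2, hρ e (hE he)⟩

end Pool.Agent.H180.FF
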