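import Pool.Agent.H180.RS.Stmts2

/-!
# Redei symbols and Tate classes over finite fields and number fields: statements of the parts

Compared with `H180.RS.Stmts2` the conditions on power residues are dropped: `m` times the
distribution of the normalised Gauss sums is used.
-/

set_option autoImplicit false

namespace Pool.Agent.H180.FF

open Finset NumberField Filter Topology Pool.Agent.H916R2 Pool.Agent.Q59.FS Pool.Agent.Q59.RL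
  Pool.Agent.H180.RS

/-- `m` times the distribution of the normalised Gauss sums -/
noncomputable def cM {ℓ m : ℕ} [Fact ℓ.Prime] (χ : MulChar (ZMod ℓ) ℂ) (ψ : AddChar (ZMod ℓ) ℂ)
    (a : ZMod m) : Additive ℂˣ := (m : ℤ) • cD χ ψ a

/-- **DISTM.** `m` times the normalised Gauss sums are an odd distribution. -/
def PropDistM : Prop := ∀ (ℓ m : ℕ) [Fact ℓ.Prime] [NeZero m], Odd m →
  ∀ (χ : MulChar (ZMod ℓ) ℂ) (ψ : AddChar (ZMod ℓ) ℂ), ψ ≠ 1 → orderOf χ = m →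
    OddDist (cM (m := m) χ ψ)

/-- **VALM.** The value of the exotic class. -/
def PropValM : Prop := ∀ (ℓ m p q : ℕ) [Fact ℓ.Prime] [NeZero m], Odd m → p.Prime → q.Prime →
  p ≠ q → p ∣ m → q ∣ m → ∀ (χ : MulChar (ZMod ℓ) ℂ) (ψ : AddChar (ZMod ℓ) ℂ), ψ ≠ 1 →
  orderOf χ = m → Xc m p q (cM (m := m) χ ψ) = toU (ev p q ψ (χ ^ (m / p)) (χ ^ (m / q)) ^ m)

/-- **SQM.** The power of the value is a sign, and symmetric. -/
def PropSqM : Prop := ∀ (ℓ p q : ℕ) [Fact ℓ.Prime], p.Prime → q.Prime → p ≠ 2 → q ≠ 2 → p ≠ q →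
  ∀ (α β : MulChar (ZMod ℓ) ℂ) (ψ : AddChar (ZMod ℓ) ℂ), ψ ≠ 1 → orderOf α = p →
  orderOf β = q → ev p q ψ α β ^ (2 * (p * q)) = 1 ∧
    ev q p ψ β α ^ (p * q) = ev p q ψ α β ^ (p * q)

/-- **EVM.** The power of the value at a split pair is a Redei symbol. -/
def PropEvM : Prop := ∀ (ℓ p q : ℕ) [Fact ℓ.Prime], p.Prime → q.Prime → p ≠ 2 → q ≠ 2 → p ≠ q →
  ℓ % 8 = 1 → ∀ (α β : MulChar (ZMod ℓ) ℂ) (ψ : AddChar (ZMod ℓ) ℂ), ψ ≠ 1 → orderOf α = p →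
  orderOf β = q → ev p q ψ α β ^ (2 * (p * q)) = 1 → q % 4 = 1 → IsSquare ((p : ℕ) : ZMod q) →
  ∀ x y z : ℤ, IsCoprime x y → z ≠ 0 → ¬ (ℓ : ℤ) ∣ z → x ^ 2 - st p * y ^ 2 = q * z ^ 2 →
  ∀ r : ZMod ℓ, r ^ 2 = (st p : ZMod ℓ) →
    ev p q ψ α β ^ (p * q) = ((quadraticChar (ZMod ℓ) ((x : ZMod ℓ) + y * r) : ℤ) : ℂ)

/-- **HODGEF.** Tate classes are of Hodge type, if the prime is `1` modulo the degree. -/
def PropHodgeF : Prop := ∀ (ℓ m n : ℕ) [Fact ℓ.Prime] [NeZero m], 2 ≤ m → 0 < n →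
  ∀ (χ : MulChar (ZMod ℓ) ℂ) (ψ : AddChar (ZMod ℓ) ℂ), ψ ≠ 1 → orderOf χ = m →
  ∀ s : Multiset (ZMod m), (0 : ZMod m) ∉ s → s.sum = 0 →
    (s.map fun a => gaussSum (χ ^ a.val) ψ).prod ^ (2 * n) = (ℓ : ℂ) ^ (n * Multiset.card s) →
      IsHodge m s

/-- **LIFT.** Products of Gauss sums over an extension field (Davenport and Hasse). -/
def PropLift : Prop := ∀ (ℓ k m : ℕ) [Fact ℓ.Prime], 0 < k → m ∣ ℓ - 1 →
  ∀ (F : Type) [Field F] [Fintype F], Fintype.card F = ℓ ^ k →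
  ∀ (χ : MulChar F ℂ) (ψ : AddChar F ℂ), ψ ≠ 1 → orderOf χ = m →
    ∃ (χ0 : MulChar (ZMod ℓ) ℂ) (ψ0 : AddChar (ZMod ℓ) ℂ), ψ0 ≠ 1 ∧ orderOf χ0 = m ∧
      ∀ s : Multiset (ZMod m), (0 : ZMod m) ∉ s → s.sum = 0 →
        (s.map fun a => gaussSum (χ ^ a.val) ψ).prod =
          (-1) ^ ((k - 1) * Multiset.card s) *
            (s.map fun a => gaussSum (χ0 ^ a.val) ψ0).prod ^ k

/-- the primes `1` modulo `8 m` at which the Redei symbol is `-1` -/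
def Neg (m p : ℕ) (x y z : ℤ) (ℓ : ℕ) : Prop := ℓ.Prime ∧ 8 * m ∣ ℓ - 1 ∧ ¬ (ℓ : ℤ) ∣ z ∧
  ∀ r : ZMod ℓ, r ^ 2 = (st p : ZMod ℓ) → ¬ IsSquare ((x : ZMod ℓ) + y * r)

/-- **DENSF.** The density of these primes. -/
def PropDensF : Prop := ∀ (m p q : ℕ), Odd m → p.Prime → q.Prime → p ≠ q → p ∣ m → q ∣ m →
  q % 4 = 1 → ∀ x y z : ℤ, IsCoprime x y → z ≠ 0 → x ^ 2 - st p * y ^ 2 = q * z ^ 2 →
    Tendsto (fun N : ℕ => (Nat.card {ℓ : ℕ // ℓ ≤ N ∧ Neg m p x y z ℓ} : ℝ) /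
      (Nat.primeCounting N : ℝ)) atTop (𝓝 (1 / (2 * (Nat.totient (8 * m) : ℝ))))

/-- **CHEB2.** The choice of the prime, over all number fields. -/
def PropCheb2 : Prop := ∀ (K : Type) [Field K] [NumberField K] (m B : ℕ), Odd m →
  (∃ ζ : K, IsPrimitiveRoot ζ m) → ∀ (κ : Type) [Fintype κ] (A : κ → ℤ) (x y : κ → ℤ) (ρ : κ → K),
  (∀ e, ρ e ^ 2 = (A e : K)) →
  (∀ d : ℤ, d = 1 ∨ d = -1 ∨ d = 2 ∨ d = -2 →
    ¬ IsSquare ((d : K) * ∏ e, ((x e : K) + y e * ρ e))) →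
  ∃ (ℓ : ℕ) (_ : Fact ℓ.Prime) (φ : 𝓞 K →+* ZMod ℓ) (r : κ → ZMod ℓ), B < ℓ ∧ 8 * m ∣ ℓ - 1 ∧
    (∀ e, r e ^ 2 = (A e : ZMod ℓ)) ∧
    ∏ e, quadraticChar (ZMod ℓ) ((x e : ZMod ℓ) + y e * r e) = -1

end Pool.Agent.H180.FF
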